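import Pool.Agent.K3h53.UG.Stm
import Pool.Agent.K3h48.EX.Unit2

/-! UG brick AVS (helper48 for helper53): zeros of entire functions of several variables. -/

set_option autoImplicit false

namespace Pool.Agent.K3h48.UG

open Filter Topology Metric Set Pool.Agent.K3h53.UG

theorem t_AV : S_AV := by
  intro s M g w₀ hM hg hne
  by_contra hcon
  push Not at hcon
  obtain ⟨w, hw⟩ := hne
  apply hw
  have hM' : IsUnit M.det := isUnit_iff_ne_zero.2 hM
  let G : (Fin s → ℂ) → ℂ := fun u => g (w₀ + M⁻¹.mulVec (Complex.I • u))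
  have hG : ∀ u, G u = 0 := by
    apply Pool.Agent.K3h48.EX.ident G
    · intro u i
      have h1 : Differentiable ℂ fun z : ℂ => Function.update u i z := by
        rw [differentiable_pi]
        intro j
        by_cases hji : j = i
        · subst hji
          simp only [Function.update_self]
          exact differentiable_id
        · simp only [Function.update_of_ne hji]
          exact differentiable_const _
      have h2 : Differentiable ℂ fun u : Fin s → ℂ => M⁻¹.mulVec u :=
        (Matrix.mulVecLin M⁻¹).toContinuousLinearMap.differentiable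
      exact hg.comp ((differentiable_const w₀).add (h2.comp (h1.const_smul Complex.I)))
    · intro τ _
      apply hcon
      intro j
      rw [Matrix.mulVec_mulVec, Matrix.mul_nonsing_inv _ hM', Matrix.one_mulVec]
      simp
  have h3 := hG (-Complex.I • M.mulVec (w - w₀))
  simp only [G, smul_smul] at h3
  have h4 : Complex.I * -Complex.I = 1 := by
    rw [mul_neg, Complex.I_mul_I, neg_neg]
  rw [h4, one_smul, Matrix.mulVec_mulVec, Matrix.nonsing_inv_mul _ hM', Matrix.one_mulVec] at h3
  rwa [add_sub_cancel] at h3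

/-- restriction to a complex line -/
lemma line {s : ℕ} {f : (Fin s → ℂ) → ℂ} (hf : Differentiable ℂ f) (x y : Fin s → ℂ) :
    Differentiable ℂ fun t : ℂ => f (x + t • (y - x)) :=
  hf.comp ((differentiable_const x).add (differentiable_id.smul_const (y - x)))

theorem t_PROD : S_PROD := by
  intro s f g hf hg ⟨x, hx⟩ ⟨y, hy⟩
  by_contra hcon
  push Not at hcon
  have h1 := line hf x y
  have h2 := line hg x y
  have h3 : ∀ᶠ t : ℂ in 𝓝 0, f (x + t • (y - x)) ≠ 0 := by
    apply h1.continuous.continuousAt.eventually_ne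
    simpa using hx
  have h4 : AnalyticOnNhd ℂ (fun t : ℂ => g (x + t • (y - x))) Set.univ :=
    h2.differentiableOn.analyticOnNhd isOpen_univ
  have h5 : (fun t : ℂ => g (x + t • (y - x))) =ᶠ[𝓝 0] 0 := by
    filter_upwards [h3] with t ht
    exact (mul_eq_zero.1 (hcon (x + t • (y - x)))).resolve_left ht
  have h6 := h4.eqOn_zero_of_preconnected_of_eventuallyEq_zero isPreconnected_univ
    (Set.mem_univ 0) h5 (Set.mem_univ 1)
  simp only [one_smul, add_sub_cancel, Pi.zero_apply] at h6
  exact hy h6

/-- the zeros of an entire function of one variable are countable -/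
lemma countable_zeros {φ : ℂ → ℂ} (hφ : Differentiable ℂ φ) (h0 : φ 0 ≠ 0) :
    {t : ℂ | φ t = 0}.Countable := by
  have h1 : AnalyticOnNhd ℂ φ Set.univ := hφ.differentiableOn.analyticOnNhd isOpen_univ
  have h2 : (φ ⁻¹' {0})ᶜ ∈ Filter.codiscrete ℂ := h1.preimage_zero_mem_codiscrete (x := 0) h0
  have h3 : IsDiscrete (φ ⁻¹' {0}) := by
    simpa using (mem_codiscrete'.mp h2).2
  exact (HereditarilyLindelofSpace.isLindelof (φ ⁻¹' {0})).countable_of_isDiscrete h3

theorem t_SEG : S_SEG := by
  intro s g a b hg ha hb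
  let φ : ℂ → ℂ := fun t => g (a + t • (b - a))
  have hφ : Differentiable ℂ φ := line hg a b
  have h0 : φ 0 ≠ 0 := by simpa [φ] using ha
  have h1 : φ 1 ≠ 0 := by simpa [φ] using hb
  have hZ := countable_zeros hφ h0
  let B : Set ℝ := (fun z : ℂ => z.im / (2 * z.re)) '' {t | φ t = 0} ∪
    (fun z : ℂ => z.im / (2 - 2 * z.re)) '' {t | φ t = 0}
  have hB : B.Countable := (hZ.image _).union (hZ.image _)
  obtain ⟨y, hy⟩ := (hB.dense_compl ℝ).nonempty
  let t : ℂ := ⟨1 / 2, y⟩
  refine ⟨a + t • (b - a), ?_, ?_⟩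
  · intro w hw hw0
    rw [segment_eq_image_lineMap] at hw
    obtain ⟨r, ⟨hr0, hr1⟩, rfl⟩ := hw
    have h2 : AffineMap.lineMap a (a + t • (b - a)) r = a + ((r : ℂ) * t) • (b - a) := by
      rw [AffineMap.lineMap_apply, vsub_eq_sub, vadd_eq_add, add_sub_cancel_left, mul_smul,
        add_comm]
      rfl
    rw [h2] at hw0
    have h3 : φ ((r : ℂ) * t) = 0 := hw0
    have hr : r ≠ 0 := by
      rintro rfl
      simp only [Complex.ofReal_zero, zero_mul] at h3
      exact h0 h3
    apply hy
    left
    refine ⟨(r : ℂ) * t, h3, ?_⟩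
    simp only [Complex.mul_im, Complex.mul_re, Complex.ofReal_re, Complex.ofReal_im, t]
    have h5 : 2 * (r * (1 / 2) - 0 * y) = r := by ring
    rw [h5, zero_mul, add_zero]
    exact mul_div_cancel_left₀ y hr
  · intro w hw hw0
    rw [segment_eq_image_lineMap] at hw
    obtain ⟨r, ⟨hr0, hr1⟩, rfl⟩ := hw
    have h2 : AffineMap.lineMap (a + t • (b - a)) b r = a + ((1 - r : ℂ) * t + r) • (b - a) := by
      rw [AffineMap.lineMap_apply, vsub_eq_sub, vadd_eq_add]
      funext i
      simp only [Pi.add_apply, Pi.smul_apply, Pi.sub_apply, smul_eq_mul, Complex.real_smul]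
      ring
    rw [h2] at hw0
    have h3 : φ ((1 - r : ℂ) * t + r) = 0 := hw0
    have hr : 1 - r ≠ 0 := by
      intro h
      have h4 : r = 1 := by linarith
      rw [h4] at h3
      simp only [Complex.ofReal_one, sub_self, zero_mul, zero_add] at h3
      exact h1 h3
    apply hy
    right
    refine ⟨(1 - r : ℂ) * t + r, h3, ?_⟩
    simp only [Complex.add_im, Complex.add_re, Complex.mul_im, Complex.mul_re, Complex.sub_re,
      Complex.sub_im, Complex.one_re, Complex.one_im, Complex.ofReal_re, Complex.ofReal_im, t]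
    have h5 : 2 - 2 * ((1 - r) * (1 / 2) - (0 - 0) * y + r) = 1 - r := by ring
    rw [h5, div_eq_iff hr]
    ring

end Pool.Agent.K3h48.UG
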